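import Mathlib
import Pool.Agent.V11123.Threshold

/-!
# The threshold number is unbounded on graphs whose complement has threshold dimension two
-/

set_option autoImplicit false

namespace Pool.Agent.Results.MP_9c4245_co.DimTwoUnbounded

open Pool.Agent.V11123.Threshold

/-- For every `C` there is a finite graph `G` with `t(Gᶜ) = 2` and `Θ(G) > C`. -/
theorem result (C : ℕ) : ∃ (V : Type) (_ : Fintype V) (G : SimpleGraph V),
    thresholdDimension Gᶜ = 2 ∧ C < thresholdNumber G := by
  refine ⟨_, inferInstance, ex (2 * (C + 2) + 2), ex_dim _ (ex_not (C + 2) 2 (by omega)), ?_⟩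
  by_contra h
  push Not at h
  exact ex_not (C + 2) _ (by omega) (thresholdNumber_spec _)

end Pool.Agent.Results.MP_9c4245_co.DimTwoUnbounded
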